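import Pool.Agent.Q289.MK.Median

/-!
# The median of a McKay Type I law is strictly increasing in `c`
-/

set_option autoImplicit false

open MeasureTheory ProbabilityTheory Filter Topology

namespace Pool.Agent.Results.MP_aeb357_pr.StrictlyIncreasing

/-- the median `inf {x | P (X ≤ x) ≥ 1/2}` of a law `ν` on the real line -/
noncomputable def Med (ν : Measure ℝ) : ℝ := sInf {x : ℝ | 1 / 2 ≤ ν.real (Set.Iic x)}

/-- the law of `φ (1 - 1/c) X₁ + φ (1 + 1/c) X₂` with `X₁, X₂` independent of law `Γ(m + 1/2, 1)` -/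
noncomputable def McKay (m c φ : ℝ) : Measure ℝ :=
  ((gammaMeasure (m + 1 / 2) 1).prod (gammaMeasure (m + 1 / 2) 1)).map
    (fun p => φ * (1 - 1 / c) * p.1 + φ * (1 + 1 / c) * p.2)

section

variable {m c φ : ℝ}

theorem meas_lin (c φ : ℝ) : Measurable fun p : ℝ × ℝ => φ * (1 - 1 / c) * p.1 + φ * (1 + 1 / c) * p.2 := by
  fun_prop

theorem prob_gamma (hm : -1 / 2 < m) : IsProbabilityMeasure (gammaMeasure (m + 1 / 2) 1) :=
  isProbabilityMeasure_gammaMeasure (by linarith) one_pos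

theorem prob_mckay (hm : -1 / 2 < m) : IsProbabilityMeasure (McKay m c φ) := by
  have := prob_gamma hm
  exact Measure.isProbabilityMeasure_map (meas_lin c φ).aemeasurable

theorem cdf_mckay (hm : -1 / 2 < m) (hc : 1 < c) (hφ : 0 < φ) {x : ℝ} (hx : 0 ≤ x) :
    (McKay m c φ).real (Set.Iic x) = Q289.MK.FF (m + 1 / 2) (x / φ) (1 - 1 / c) := by
  have hc0 : 0 < c := by linarith
  have h1 : 1 / c < 1 := by rw [div_lt_one hc0]; exact hc
  have h2 : 0 < 1 / c := by positivity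
  rw [← Q289.MK.prob_eq (r := m + 1 / 2) (by linarith) (div_nonneg hx hφ.le) (by linarith)
    (by linarith)]
  unfold McKay
  rw [map_measureReal_apply (meas_lin c φ) measurableSet_Iic]
  congr 1
  ext p
  simp only [Set.mem_preimage, Set.mem_Iic, Set.mem_ofPred_eq]
  rw [le_div_iff₀ hφ]
  have : φ * (1 - 1 / c) * p.1 + φ * (1 + 1 / c) * p.2 =
    ((1 - 1 / c) * p.1 + (2 - (1 - 1 / c)) * p.2) * φ := by ring
  rw [this]

theorem atom_mckay (hm : -1 / 2 < m) (hc : 1 < c) (hφ : 0 < φ) (x : ℝ) :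
    McKay m c φ {x} = 0 := by
  have := prob_gamma hm
  have hc0 : 0 < c := by linarith
  have h2 : 0 < 1 / c := by positivity
  have h3 : 0 < φ * (1 + 1 / c) := by positivity
  unfold McKay
  rw [Measure.map_apply (meas_lin c φ) (measurableSet_singleton x),
    Measure.measure_prod_null ((meas_lin c φ) (measurableSet_singleton x))]
  refine Filter.Eventually.of_forall fun y => ?_
  have hsub : Prod.mk y ⁻¹' ((fun p : ℝ × ℝ => φ * (1 - 1 / c) * p.1 + φ * (1 + 1 / c) * p.2) ⁻¹' {x})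
      ⊆ {(x - φ * (1 - 1 / c) * y) / (φ * (1 + 1 / c))} := by
    intro z hz
    simp only [Set.mem_preimage, Set.mem_singleton_iff] at hz ⊢
    rw [eq_div_iff h3.ne']
    linarith
  refine measure_mono_null hsub ?_
  exact (withDensity_absolutelyContinuous _ _) (measure_singleton _)

theorem iio_mckay (hm : -1 / 2 < m) (hc : 1 < c) (hφ : 0 < φ) (x : ℝ) :
    (McKay m c φ).real (Set.Iio x) = (McKay m c φ).real (Set.Iic x) := by
  have := prob_mckay (c := c) (φ := φ) hm
  unfold Measure.real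
  congr 1
  rw [← Set.Iio_union_right, measure_union (by simp) (measurableSet_singleton x),
    atom_mckay hm hc hφ, add_zero]

theorem med_pos (hm : -1 / 2 < m) (hc : 1 < c) (hφ : 0 < φ) :
    0 < Q289.MK.Med (McKay m c φ) := by
  have := prob_mckay (c := c) (φ := φ) hm
  by_contra hcon
  push Not at hcon
  have h1 := Q289.MK.med_mem (ν := McKay m c φ)
  have h2 : (McKay m c φ).real (Set.Iic (Q289.MK.Med (McKay m c φ))) ≤
      (McKay m c φ).real (Set.Iic 0) := measureReal_mono (Set.Iic_subset_Iic.2 hcon)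
  rw [cdf_mckay hm hc hφ le_rfl] at h2
  have h3 : Q289.MK.FF (m + 1 / 2) (0 / φ) (1 - 1 / c) = 0 := by
    unfold Q289.MK.FF
    simp [Q289.MK.gam]
  linarith

theorem med_le_mean (hm : -1 / 2 < m) (hc : 1 < c) (hφ : 0 < φ) :
    Q289.MK.Med (McKay m c φ) ≤ (2 * m + 1) * φ := by
  have := prob_mckay (c := c) (φ := φ) hm
  have hc0 : 0 < c := by linarith
  have h1 : 1 / c < 1 := by rw [div_lt_one hc0]; exact hc
  have h2 : 0 < 1 / c := by positivity
  apply Q289.MK.med_le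
  have h5 : (0 : ℝ) < 2 * m + 1 := by linarith
  rw [cdf_mckay hm hc hφ (by positivity)]
  have h3 : (2 * m + 1) * φ / φ = 2 * (m + 1 / 2) := by field_simp
  rw [h3]
  have h4 := (Q289.MK.FF_strictAnti (r := m + 1 / 2) (t := 2 * (m + 1 / 2)) (by linarith)
    (by linarith) le_rfl) (a := 1 - 1 / c) (b := 1) ⟨by linarith, by linarith⟩ ⟨one_pos, le_rfl⟩
    (by linarith)
  have h6 := Q289.MK.FF_one (r := m + 1 / 2) (by linarith)
  exact h6.trans h4.le

theorem med_strict (hm : -1 / 2 < m) (hφ : 0 < φ) {c₁ c₂ : ℝ} (hc₁ : 1 < c₁) (h12 : c₁ < c₂) :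
    Q289.MK.Med (McKay m c₁ φ) < Q289.MK.Med (McKay m c₂ φ) := by
  have hc₂ : 1 < c₂ := hc₁.trans h12
  have i1 := prob_mckay (c := c₁) (φ := φ) hm
  have i2 := prob_mckay (c := c₂) (φ := φ) hm
  have hp := med_pos hm hc₂ hφ
  have hle := med_le_mean hm hc₂ hφ
  have hmem := Q289.MK.med_mem (ν := McKay m c₂ φ)
  set M := Q289.MK.Med (McKay m c₂ φ) with hM
  rw [cdf_mckay hm hc₂ hφ hp.le] at hmem
  apply Q289.MK.med_lt
  rw [iio_mckay hm hc₁ hφ, cdf_mckay hm hc₁ hφ hp.le]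
  refine lt_of_le_of_lt hmem ?_
  have hc10 : 0 < c₁ := by linarith
  have hc20 : 0 < c₂ := by linarith
  have h1 : 1 / c₁ < 1 := by rw [div_lt_one hc10]; exact hc₁
  have h2 : 1 / c₂ < 1 / c₁ := one_div_lt_one_div_of_lt hc10 h12
  have h3 : 0 < 1 / c₂ := by positivity
  apply Q289.MK.FF_strictAnti (r := m + 1 / 2) (by linarith) (by positivity)
  · rw [div_le_iff₀ hφ]; linarith
  · exact ⟨by linarith, by linarith⟩
  · exact ⟨by linarith, by linarith⟩
  · linarith

end

/-- Let `m > -1/2`, `φ > 0` and let `X₁, X₂` be independent random variables with law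
`Γ(m + 1/2, 1)`.  Then the median of `φ (1 - 1/c) X₁ + φ (1 + 1/c) X₂` is a strictly increasing
function of `c ∈ (1, ∞)`. -/
theorem result {Ω : Type*} [MeasurableSpace Ω] (P : Measure Ω) [IsProbabilityMeasure P]
    (X₁ X₂ : Ω → ℝ) (m φ : ℝ) (hm : -1 / 2 < m) (hφ : 0 < φ)
    (h₁ : HasLaw X₁ (gammaMeasure (m + 1 / 2) 1) P)
    (h₂ : HasLaw X₂ (gammaMeasure (m + 1 / 2) 1) P) (hind : IndepFun X₁ X₂ P) :
    StrictMonoOn (fun c : ℝ =>
      Med (P.map fun ω => φ * (1 - 1 / c) * X₁ ω + φ * (1 + 1 / c) * X₂ ω)) (Set.Ioi 1) := by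
  have hmap : ∀ c : ℝ, P.map (fun ω => φ * (1 - 1 / c) * X₁ ω + φ * (1 + 1 / c) * X₂ ω) =
      McKay m c φ := by
    intro c
    have h3 := (indepFun_iff_map_prod_eq_prod_map_map h₁.aemeasurable h₂.aemeasurable).1 hind
    rw [h₁.map_eq, h₂.map_eq] at h3
    unfold McKay
    rw [← h3, AEMeasurable.map_map_of_aemeasurable (meas_lin c φ).aemeasurable
      (h₁.aemeasurable.prodMk h₂.aemeasurable)]
    rfl
  intro c₁ hc₁ c₂ hc₂ h12
  simp only [hmap]
  exact med_strict hm hφ hc₁ h12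

end Pool.Agent.Results.MP_aeb357_pr.StrictlyIncreasing
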